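import Pool.Agent.W908.G1

set_option autoImplicit false

/-!
# An oracle relative to which there is an `NP`-hard disjoint pair and the polynomial hierarchy is
infinite
-/

namespace Pool.Agent.Results.MP_80aaf5_lc.HardPairInfinitePH

open Pool.Agent.H620R2.Gauge Pool.Agent.W908
open Pool.Agent.H591R3.PHG (IsSig IsSigPoly)

/-- There is an oracle `O` with the following two properties.
There are nonempty disjoint sets `A` and `B` in `UP` relative to `O` (in particular, in `NP`
relative to `O`) such that, for every set `S` that contains `A` and is disjoint from `B`, every
language in `NP` relative to `O` is decided in polynomial time with the oracles `O` and `S`.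
For every `k` there is a language in the level `Σ_{k+4}` of the polynomial hierarchy relative to
`O` that is not in the level `Σ_k` relative to `O`, not even with polynomial advice. -/
theorem result : ∃ O : Oracle,
    (∃ A B : Set (List Bool), A.Nonempty ∧ B.Nonempty ∧ Disjoint A B ∧ IsUP O A ∧ IsUP O B ∧
      ∀ S : Oracle, (∀ x ∈ A, S x = true) → (∀ x ∈ B, S x = false) →
        ∀ L : Set (List Bool), IsNP O L → IsP (join O S) L) ∧
    ∀ k : ℕ, ∃ L : Set (List Bool), IsSig O (k + 4) L ∧ ¬ IsSigPoly O k L :=
  main

end Pool.Agent.Results.MP_80aaf5_lc.HardPairInfinitePH
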