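import Mathlib
import Pool.Agent.W980.Esy.Final
import Pool.Agent.W980.Esy.Contrast

/-!
# No disjoint pair with short proofs is hard for satisfiability under parallel Turing reductions
-/

set_option autoImplicit false

namespace Pool.Agent.Results.MP_80aaf5_lc.ParallelReductions

open SmallDepth Filter Pool.Agent.W980.Esy

/-- The statement of Even, Selman and Yacobi for ideal parallel random access machines.

1. `A` and `B` are disjoint sets of strings of `P` words that have proofs of `g` bits which are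
checked by ideal parallel machines with `P' ≤ 2 ^ ((1 - ε) n)` processors in `T` steps. `R` is an
adaptive Turing reduction which asks `k` questions of `P` words and makes `T` steps with
`P ≤ 2 ^ ((1 - ε) n)` processors for every question and for the answer. If
`C T log (n + g + k) ≤ w ≤ n` and `M ≥ n 2 ^ w`, then there are a separator `S` of `(A, B)` and
formulas `x₀`, `x₁` with `n` variables and `M` clauses of width at most `w` such that `x₀` is
unsatisfiable, `x₁` has exactly one model, and `R` computes the same value on `x₀` and `x₁` when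
the oracle is `S`.

2. One separator for countably many reductions: `T n log n = o(n)`, at most
`(2 - δ) ^ n e M ^ e` processors, `n ^ c` questions and proofs of `n ^ c` bits.

3. The second set must have short proofs: some set `A` has proofs of `n` bits which are checked in
one step, and satisfiability reduces to every separator of `(A, Aᶜ)` with one question and one
step. -/
theorem result :
    (∀ ε : ℝ, 0 < ε → ∀ K : ℕ, ∃ C : ℝ, 0 < C ∧
      ∀ n T g k w M : ℕ, 2 ≤ n → 1 ≤ T → C * (T * Real.log (n + g + k)) ≤ w → w ≤ n →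
      n * 2 ^ w ≤ M →
      ∀ (P P' : ℕ) (W : Type) (A B : Set (Fin P → W)) (R : Reduction (Fin M × Fin n × Bool) W P),
        (P : ℝ) ≤ 2 ^ ((1 - ε) * n) → (P' : ℝ) ≤ 2 ^ ((1 - ε) * n) →
        Disjoint A B → HasProofs P' T g (2 ^ (K * n)) A → HasProofs P' T g (2 ^ (K * n)) B →
        R.Lists (2 ^ (K * n)) →
        ∃ S : Set (Fin P → W), A ⊆ S ∧ Disjoint S B ∧
          ∃ x₀ x₁, WidthLe x₀ w ∧ WidthLe x₁ w ∧ (¬ ∃ α, Models x₀ α) ∧ (∃! α, Models x₁ α) ∧
            R.value T k S x₀ = R.value T k S x₁) ∧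
    (∀ δ : ℝ, 0 < δ → δ < 2 → ∀ (K c : ℕ) (T : ℕ → ℕ), (∀ n, 1 ≤ T n) →
      (fun n : ℕ => (T n : ℝ) * Real.log n) =o[atTop] (fun n : ℕ => (n : ℝ)) →
      ∃ w : ℕ → ℕ, (∃ C : ℝ, ∀ n, 2 ≤ n → (w n : ℝ) ≤ C * (T n * Real.log n)) ∧
        ∀ (e : ℕ) (P P' : ℕ → ℕ) (W : ℕ → Type) (A B : ∀ n, Set (Fin (P n) → W n))
          (R : ℕ → ∀ n, Reduction (Fin (n * 2 ^ w n) × Fin n × Bool) (W n) (P n)),
          (∀ n, (P n : ℝ) ≤ (2 - δ) ^ n * (e * (((n * 2 ^ w n : ℕ) : ℝ)) ^ e)) →
          (∀ n, (P' n : ℝ) ≤ (2 - δ) ^ n * (e * (((n * 2 ^ w n : ℕ) : ℝ)) ^ e)) →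
          (∀ n, Disjoint (A n) (B n)) →
          (∀ n, HasProofs (P' n) (T n) (n ^ c) (2 ^ (K * n)) (A n)) →
          (∀ n, HasProofs (P' n) (T n) (n ^ c) (2 ^ (K * n)) (B n)) →
          (∀ i n, (R i n).Lists (2 ^ (K * n))) →
          ∃ S : ∀ n, Set (Fin (P n) → W n), (∀ n, A n ⊆ S n ∧ Disjoint (S n) (B n)) ∧
            ∀ i, ∃ᶠ n in atTop, ∃ x₀ x₁, WidthLe x₀ (w n) ∧ WidthLe x₁ (w n) ∧
              (¬ ∃ α, Models x₀ α) ∧ (∃! α, Models x₁ α) ∧
              (R i n).value (T n) (n ^ c) (S n) x₀ = (R i n).value (T n) (n ^ c) (S n) x₁) ∧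
    (∀ n M : ℕ, ∃ (A : Set (Fin (M * (n * 2)) → Bool))
      (R : Reduction (Fin M × Fin n × Bool) Bool (M * (n * 2))),
      HasProofs M 1 n n A ∧ R.Lists 1 ∧
        ∀ S, A ⊆ S → Disjoint S Aᶜ → ∀ x, (R.value 1 1 S x = true ↔ ∃ α, Models x α)) :=
  ⟨esy_cnf, esy_seq, contrast⟩

end Pool.Agent.Results.MP_80aaf5_lc.ParallelReductions
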